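import Pool.Agent.Lib.CBT.Final

set_option autoImplicit false

namespace Pool.Agent.Results.MP_3999f7_lc.BairePieces

/-- Three dimensional Euclidean space. -/
abbrev Space : Type := EuclideanSpace ℝ (Fin 3)

/-- The group of orientation preserving isometries `x ↦ R x + τ`, `R ∈ SO(3)`, `τ ∈ ℝ³`, with its
usual topology, that of the product of `SO(3)` and `ℝ³`. -/
abbrev Motion : Type := Matrix.specialOrthogonalGroup (Fin 3) ℝ × Space

/-- The isometry `x ↦ R x + τ`. -/
noncomputable def Motion.map (g : Motion) (x : Space) : Space :=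
  Matrix.toEuclideanLin (g.1 : Matrix (Fin 3) (Fin 3) ℝ) x + g.2

/-- The property of Baire. -/
def HasBaireProperty (X : Set Space) : Prop :=
  ∃ U : Set Space, IsOpen U ∧ IsMeagre (symmDiff X U)

/-- `A` and `B` are continuously equidecomposable with pieces having the property of Baire. -/
def BaireContinuouslyEquidecomposable (A B : Set Space) : Prop :=
  ∃ (m : ℕ) (P Q : Fin m → Set Space) (α : Fin m → unitInterval → Motion),
    (∀ i, (P i).Nonempty) ∧ (∀ i, HasBaireProperty (P i)) ∧
    ((⋃ i, P i) = A ∧ Pairwise fun i j => Disjoint (P i) (P j)) ∧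
    ((⋃ i, Q i) = B ∧ Pairwise fun i j => Disjoint (Q i) (Q j)) ∧
    (∀ i, Continuous (α i)) ∧ (∀ i x, (α i 0).map x = x) ∧ (∀ i, (α i 1).map '' P i = Q i) ∧
    ∀ t, Pairwise fun i j => Disjoint ((α i t).map '' P i) ((α j t).map '' P j)

/-- For every vector `v` the closed unit ball is continuously equidecomposable, with pieces having
the property of Baire, with its union with its translate by `v`. -/
theorem result (v : Space) : BaireContinuouslyEquidecomposable (Metric.closedBall 0 1)
    (Metric.closedBall 0 1 ∪ Metric.closedBall v 1) := by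
  classical
  obtain ⟨m, A, R, τ, h1, h2, h3, h4, h5, h6, h7, h8⟩ := Pool.Agent.CBT.concl v
  obtain ⟨n, ⟨e⟩⟩ := Finite.exists_equiv_fin {i : Fin m // (A i).Nonempty}
  let a : Fin n → Fin m := fun k => (e.symm k).1
  have ha : Function.Injective a := fun k l h => e.symm.injective (Subtype.ext h)
  have hne : ∀ k, (A (a k)).Nonempty := fun k => (e.symm k).2
  have hsur : ∀ i, (A i).Nonempty → ∃ k, a k = i := fun i hi =>
    ⟨e ⟨i, hi⟩, by simp only [a, Equiv.symm_apply_apply]⟩
  have hun : ∀ F : Fin m → Set Space, (∀ i, ¬ (A i).Nonempty → F i = ∅) →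
      (⋃ k, F (a k)) = ⋃ i, F i := by
    intro F hF
    ext x
    simp only [Set.mem_iUnion]
    constructor
    · rintro ⟨k, hk⟩; exact ⟨a k, hk⟩
    · rintro ⟨i, hi⟩
      by_cases hA : (A i).Nonempty
      · obtain ⟨k, rfl⟩ := hsur i hA
        exact ⟨k, hi⟩
      · rw [hF i hA] at hi
        exact absurd hi (Set.notMem_empty x)
  let α : Fin n → unitInterval → Motion := fun k t => (⟨R (a k) t, h5 _ _ t.2⟩, τ (a k) t)
  have hα : ∀ k t x, (α k t).map x = Matrix.toEuclideanLin (R (a k) t) x + τ (a k) t :=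
    fun _ _ _ => rfl
  have himg : ∀ k t, (α k t).map '' A (a k) =
      (fun x => Matrix.toEuclideanLin (R (a k) t) x + τ (a k) t) '' A (a k) := fun _ _ => rfl
  refine ⟨n, fun k => A (a k), fun k => (α k 1).map '' A (a k), α, hne, fun k => h3 _,
    ⟨?_, fun k l hkl => h2 (ha.ne hkl)⟩, ⟨?_, fun k l hkl => ?_⟩, fun k => ?_, fun k x => ?_,
    fun _ => rfl, fun t k l hkl => ?_⟩
  · rw [hun A (fun i hi => Set.not_nonempty_iff_eq_empty.mp hi), h1]
  · rw [← h8, ← hun (fun i => (fun x => Matrix.toEuclideanLin (R i 1) x + τ i 1) '' A i)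
      (fun i hi => by rw [Set.not_nonempty_iff_eq_empty.mp hi, Set.image_empty])]
    rfl
  · exact h7 1 ⟨zero_le_one, le_rfl⟩ (ha.ne hkl)
  · have c1 : Continuous fun t : unitInterval => R (a k) t :=
      continuousOn_iff_continuous_domRestrict.mp (h4 (a k)).1
    have c2 : Continuous fun t : unitInterval => τ (a k) t :=
      continuousOn_iff_continuous_domRestrict.mp (h4 (a k)).2
    exact (c1.subtype_mk _).prodMk c2
  · rw [hα]
    have e1 : R (a k) ((0 : unitInterval) : ℝ) = 1 := (h6 (a k)).1
    have e2 : τ (a k) ((0 : unitInterval) : ℝ) = 0 := (h6 (a k)).2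
    rw [e1, e2, add_zero]
    simp
  · exact h7 t t.2 (ha.ne hkl)

end Pool.Agent.Results.MP_3999f7_lc.BairePieces
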